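import Pool.Agent.H21.HV.Defs
import Pool.Graph.R_pool_sql_team_seeded_843ab51a.V11298.EC.Forb

/-!
# Project HV, part AAE: edge colourings with few forbidden colours at every vertex
-/

set_option autoImplicit false
open Classical Finset

namespace Pool.Agent.H31.HV

open Pool.Agent.H21.HV

theorem polylog (η : ℝ) (hη : 0 < η) : ∃ D0 : ℕ, ∀ D : ℕ, D0 ≤ D → 1 ≤ D ∧
    64 + (88 + 40 * ((Nat.log 2 (2 * D + 1) : ℕ) + 4 : ℝ) ^ 2) * Real.log (2 * (D : ℝ) + 1)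
      ≤ η * D := by
  have h1 : (fun x : ℝ => Real.log x ^ 3) =o[Filter.atTop] (id : ℝ → ℝ) :=
    Real.isLittleO_pow_log_id_atTop
  have h2 := h1.bound (show (0 : ℝ) < η / 6000 by positivity)
  rw [Filter.eventually_atTop] at h2
  obtain ⟨x0, hx0⟩ := h2
  refine ⟨⌈x0⌉₊ + 3, fun D hD => ⟨by omega, ?_⟩⟩
  have hD1 : x0 ≤ (D : ℝ) := (Nat.le_ceil x0).trans (by exact_mod_cast (by omega : ⌈x0⌉₊ ≤ D))
  have hD3 : (3 : ℝ) ≤ D := by exact_mod_cast (by omega : 3 ≤ D)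
  have h3 := hx0 (2 * (D : ℝ) + 1) (by linarith)
  set L := Real.log (2 * (D : ℝ) + 1) with hL
  have hL1 : 1 ≤ L := by
    rw [hL, Real.le_log_iff_exp_le (by linarith)]
    have := Real.exp_one_lt_d9
    linarith
  simp only [id, Real.norm_eq_abs] at h3
  rw [abs_of_nonneg (by positivity), abs_of_nonneg (by linarith)] at h3
  have hl : ((Nat.log 2 (2 * D + 1) : ℕ) : ℝ) ≤ 2 * L := by
    have h4 : (2 : ℝ) ^ (Nat.log 2 (2 * D + 1)) ≤ 2 * (D : ℝ) + 1 := by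
      exact_mod_cast Nat.pow_log_le_self 2 (by omega : 2 * D + 1 ≠ 0)
    have h5 := Real.log_le_log (by positivity) h4
    rw [Real.log_pow, ← hL] at h5
    have h6 := Real.log_two_gt_d9
    nlinarith [(Nat.cast_nonneg (Nat.log 2 (2 * D + 1)) : (0 : ℝ) ≤ _)]
  set l := ((Nat.log 2 (2 * D + 1) : ℕ) : ℝ) with hl'
  have hl0 : 0 ≤ l := Nat.cast_nonneg _
  have h7 : (l + 4) ^ 2 ≤ (6 * L) ^ 2 := by
    apply pow_le_pow_left₀ (by linarith)
    linarith
  have hLL : 1 ≤ L ^ 2 := one_le_pow₀ hL1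
  have hLLL : 1 ≤ L ^ 3 := one_le_pow₀ hL1
  have h8 : (88 + 40 * (l + 4) ^ 2) * L ≤ (88 * L ^ 2 + 40 * (6 * L) ^ 2) * L := by
    apply mul_le_mul_of_nonneg_right _ (by linarith)
    nlinarith
  have h9 : (88 * L ^ 2 + 40 * (6 * L) ^ 2) * L = 1528 * L ^ 3 := by ring
  have h10 : L ^ 3 ≤ η / 6000 * (3 * D) :=
    h3.trans (mul_le_mul_of_nonneg_left (by linarith) (by positivity))
  nlinarith

theorem t_AAE : S_AAE := by
  intro η hη
  obtain ⟨D0, hD0⟩ := polylog η hη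
  refine ⟨D0, fun D hD V _ Γ Fb d h N hd hh hdeg hFb hN => ?_⟩
  obtain ⟨hD1, hpl⟩ := hD0 D hD
  have hdeg' : ∀ v, Γ.degree v ≤ d := by
    intro v
    refine le_trans (le_of_eq ?_) (hdeg v)
    rw [← SimpleGraph.card_neighborFinset_eq_degree, nb]
    congr 1
    ext u
    simp
  obtain ⟨F, hF⟩ : ∃ F : Sym2 V → Finset ℕ, ∀ u v, F s(u, v) = Fb u ∪ Fb v :=
    ⟨fun e => Sym2.lift ⟨fun u v => Fb u ∪ Fb v, fun u v => union_comm _ _⟩ e,
      fun u v => Sym2.lift_mk _ _ _⟩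
  have hq1 : 1 ≤ max 1 (2 * h) := le_max_left _ _
  have hq2 : max 1 (2 * h) ≤ 2 * h + 1 := by omega
  have hq3 : max 1 (2 * h) ≤ 2 * D + 1 := by omega
  obtain ⟨c, hc1, hc2⟩ := Pool.Agent.V11298.EC.forb Γ d (max 1 (2 * h)) N hq1 hdeg' F
    (by
      intro e he
      induction e using Sym2.ind with
      | _ a b =>
      rw [hF]
      have := card_union_le (Fb a) (Fb b)
      have h1 := hFb a
      have h2 := hFb b
      have h3 := le_max_right 1 (2 * h)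
      omega)
    (by
      refine le_trans ?_ hN
      have h1 : ((max 1 (2 * h) : ℕ) : ℝ) ≤ 2 * h + 1 := by exact_mod_cast hq2
      have h2 : Real.log ((d : ℝ) + 1) ≤ Real.log (2 * (D : ℝ) + 1) := by
        apply Real.log_le_log (by positivity)
        have : (d : ℝ) ≤ 2 * D := by exact_mod_cast hd
        linarith
      have h3 : ((Nat.log 2 (max 1 (2 * h)) : ℕ) : ℝ) ≤ (Nat.log 2 (2 * D + 1) : ℕ) := by
        exact_mod_cast Nat.log_mono_right hq3
      have h4 : (0 : ℝ) ≤ Real.log ((d : ℝ) + 1) :=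
        Real.log_nonneg (by have : (0 : ℝ) ≤ d := Nat.cast_nonneg _; linarith)
      have h5 : (88 + 40 * ((Nat.log 2 (max 1 (2 * h)) : ℕ) + 4 : ℝ) ^ 2) *
          Real.log ((d : ℝ) + 1) ≤
          (88 + 40 * ((Nat.log 2 (2 * D + 1) : ℕ) + 4 : ℝ) ^ 2) *
            Real.log (2 * (D : ℝ) + 1) := by
        apply mul_le_mul _ h2 h4 (by positivity)
        have : ((Nat.log 2 (max 1 (2 * h)) : ℕ) + 4 : ℝ) ^ 2 ≤
            ((Nat.log 2 (2 * D + 1) : ℕ) + 4 : ℝ) ^ 2 := by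
          apply pow_le_pow_left₀ (by positivity)
          linarith
        linarith
      linarith)
  refine ⟨fun u v => c s(u, v), ⟨fun u v => congrArg c Sym2.eq_swap, fun u v huv =>
    (hc1 _ huv).1, fun u v w h1 h2 h3 => hc2 u v w h1 h2 h3⟩, fun u v huv => ?_⟩
  have := (hc1 s(u, v) huv).2
  rw [hF, mem_union, not_or] at this
  exact this

end Pool.Agent.H31.HV
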