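import Pool.Agent.H21.HV.Defs

/-!
# Part HAL of project HV: complete bipartite graphs coloured vertex by vertex with Hall's theorem
-/

set_option autoImplicit false
open Classical Finset

namespace Pool.Agent.H31.HV

open Pool.Agent.H21.HV

theorem t_HAL : S_HAL := by
  intro V P M U Av t bal hA hU hb hlt
  induction M using Finset.induction_on with
  | empty => exact ⟨fun _ _ => 0, by simp, by simp, by simp⟩
  | insert z M hz ih =>
    rw [card_insert_of_notMem hz] at hlt
    obtain ⟨f, h1, h2, h3⟩ := ih (fun z' hz' => hA z' (mem_insert_of_mem hz')) (by omega)
    have hAz : P.card ≤ (Av z).card := hA z (mem_insert_self _ _)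
    set W : {u // u ∈ P} → Finset ℕ := fun u => (Av z \ U u) \ M.image (fun z' => f z' u) with hW
    have hall : ∀ S : Finset {u // u ∈ P}, S.card ≤ (S.biUnion W).card := by
      intro S
      rcases S.eq_empty_or_nonempty with rfl | ⟨u0, hu0⟩
      · simp
      by_cases hS : S.card + t + M.card ≤ P.card
      · have hc1 : (Av z).card ≤ ((Av z) \ U u0).card + (U u0).card := by
          have := Finset.card_sdiff_add_card_inter (Av z) (U u0)
          have := Finset.card_le_card (Finset.inter_subset_right : Av z ∩ U u0 ⊆ U u0)
          omega
        have hc2 : ((Av z) \ U u0).card ≤ (W u0).card + M.card := by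
          have h := Finset.card_sdiff_add_card_inter ((Av z) \ U u0) (M.image (fun z' => f z' u0))
          have h' := Finset.card_le_card
            (Finset.inter_subset_right :
              ((Av z) \ U u0) ∩ M.image (fun z' => f z' u0) ⊆ M.image (fun z' => f z' u0))
          have h'' : (M.image (fun z' => f z' u0)).card ≤ M.card := Finset.card_image_le
          have : (W u0).card = (((Av z) \ U u0) \ M.image (fun z' => f z' u0)).card := rfl
          omega
        have hc3 : (W u0).card ≤ (S.biUnion W).card :=
          Finset.card_le_card (Finset.subset_biUnion_of_mem W hu0)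
        have := hU u0 u0.2
        omega
      · have hsub : Av z ⊆ S.biUnion W := by
          intro n hn
          by_contra hcon
          have hall' : ∀ u ∈ S, n ∈ U u ∨ ∃ z' ∈ M, f z' u = n := by
            intro u hu
            by_contra hno
            push Not at hno
            apply hcon
            rw [mem_biUnion]
            refine ⟨u, hu, ?_⟩
            rw [hW]
            simp only [mem_sdiff, mem_image, not_exists, not_and]
            exact ⟨⟨hn, hno.1⟩, fun z' hz' => hno.2 z' hz'⟩
          -- the bad vertices
          have hsub2 : S.map (Function.Embedding.subtype _) ⊆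
              (P.filter (fun u => n ∈ U u)) ∪ M.biUnion (fun z' => P.filter (fun u => f z' u = n)) := by
            intro u hu
            rw [mem_map] at hu
            obtain ⟨u', hu', rfl⟩ := hu
            rw [mem_union]
            rcases hall' u' hu' with h | ⟨z', hz', h⟩
            · left
              rw [mem_filter]
              exact ⟨u'.2, h⟩
            · right
              rw [mem_biUnion]
              refine ⟨z', hz', ?_⟩
              rw [mem_filter]
              exact ⟨u'.2, h⟩
          have hc := Finset.card_le_card hsub2
          rw [card_map] at hc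
          have hc2 := Finset.card_union_le (P.filter (fun u => n ∈ U u))
            (M.biUnion (fun z' => P.filter (fun u => f z' u = n)))
          have hc3 : (M.biUnion (fun z' => P.filter (fun u => f z' u = n))).card ≤ M.card * 1 := by
            refine Finset.card_biUnion_le_card_mul _ _ _ fun z' hz' => ?_
            rw [card_le_one]
            intro u hu u' hu'
            rw [mem_filter] at hu hu'
            exact h2 z' hz' u hu.1 u' hu'.1 (by rw [hu.2, hu'.2])
          have := hb n
          omega
        have hSP : S.card ≤ P.card := by
          have : (S.map (Function.Embedding.subtype _)).card ≤ P.card := by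
            refine Finset.card_le_card fun u hu => ?_
            rw [mem_map] at hu
            obtain ⟨u', _, rfl⟩ := hu
            exact u'.2
          rwa [card_map] at this
        exact hSP.trans (hAz.trans (Finset.card_le_card hsub))
    obtain ⟨g, hg1, hg2⟩ := (Finset.all_card_le_biUnion_card_iff_exists_injective W).mp hall
    have hgW : ∀ u : {u // u ∈ P}, g u ∈ Av z ∧ g u ∉ U u ∧ ∀ z' ∈ M, f z' u ≠ g u := by
      intro u
      have := hg2 u
      rw [hW] at this
      simp only [mem_sdiff, mem_image, not_exists, not_and] at this
      exact ⟨this.1.1, this.1.2, this.2⟩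
    refine ⟨fun z' u => if z' = z then (if h : u ∈ P then g ⟨u, h⟩ else 0) else f z' u, ?_, ?_, ?_⟩
    · intro z' hz' u hu
      by_cases hzz : z' = z
      · subst hzz
        simp only [if_true, dif_pos hu]
        exact ⟨(hgW ⟨u, hu⟩).1, (hgW ⟨u, hu⟩).2.1⟩
      · simp only [if_neg hzz]
        exact h1 z' (mem_of_mem_insert_of_ne hz' hzz) u hu
    · intro z' hz' u hu u' hu' he
      by_cases hzz : z' = z
      · subst hzz
        simp only [if_true, dif_pos hu, dif_pos hu'] at he
        exact congrArg Subtype.val (hg1 he)
      · simp only [if_neg hzz] at he
        exact h2 z' (mem_of_mem_insert_of_ne hz' hzz) u hu u' hu' he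
    · intro u hu z1 hz1 z2 hz2 he
      by_cases h1z : z1 = z <;> by_cases h2z : z2 = z
      · rw [h1z, h2z]
      · exfalso
        subst h1z
        simp only [if_true, dif_pos hu, if_neg h2z] at he
        exact (hgW ⟨u, hu⟩).2.2 z2 (mem_of_mem_insert_of_ne hz2 h2z) he.symm
      · exfalso
        subst h2z
        simp only [if_true, dif_pos hu, if_neg h1z] at he
        exact (hgW ⟨u, hu⟩).2.2 z1 (mem_of_mem_insert_of_ne hz1 h1z) he
      · simp only [if_neg h1z, if_neg h2z] at he
        exact h3 u hu z1 (mem_of_mem_insert_of_ne hz1 h1z) z2 (mem_of_mem_insert_of_ne hz2 h2z) he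

end Pool.Agent.H31.HV
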