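import Pool.Agent.H21.HV.Defs

/-!
# Project HV, part LIG: greedy edge colouring, balanced on the members of a disjoint family
-/

set_option autoImplicit false
open Classical Finset

namespace Pool.Agent.H31.HV

open Pool.Agent.H21.HV

theorem t_LIG : S_LIG := by
  intro V _ Λ J l σ bal N hbal hJ hin hdeg hsum hN
  have key : ∀ X : Finset (Sym2 V), ∃ c : Sym2 V → ℕ,
      (∀ e ∈ X, e ∈ Λ.edgeSet → c e < N) ∧
      (∀ u v v', Λ.Adj u v → Λ.Adj u v' → v ≠ v' → s(u, v) ∈ X → s(u, v') ∈ X →
        c s(u, v) ≠ c s(u, v')) ∧
      ∀ P ∈ J, ∀ n : ℕ,
        (P.filter (fun u => ∃ v, Λ.Adj u v ∧ s(u, v) ∈ X ∧ c s(u, v) = n)).card ≤ bal := by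
    intro X
    induction X using Finset.induction_on with
    | empty => exact ⟨fun _ => 0, by simp, by simp, by simp⟩
    | insert e X he ih =>
      obtain ⟨c, hc1, hc2, hc3⟩ := ih
      by_cases hee : e ∈ Λ.edgeSet
      · induction e using Sym2.ind with
        | _ a b =>
        rw [SimpleGraph.mem_edgeSet] at hee
        -- the full colours at a vertex
        have hfull : ∀ y : V, ((range N).filter (fun n => ∃ P ∈ J, y ∈ P ∧ bal ≤
            (P.filter (fun u => ∃ v, Λ.Adj u v ∧ s(u, v) ∈ X ∧ c s(u, v) = n)).card)).card
              ≤ σ := by
          intro y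
          by_cases hy : ∃ P ∈ J, y ∈ P
          · obtain ⟨P, hP, hyP⟩ := hy
            set F := (range N).filter (fun n => ∃ P ∈ J, y ∈ P ∧ bal ≤
              (P.filter (fun u => ∃ v, Λ.Adj u v ∧ s(u, v) ∈ X ∧ c s(u, v) = n)).card) with hF
            have h1 : F.card * bal ≤ ∑ n ∈ F,
                (P.filter (fun u => ∃ v, Λ.Adj u v ∧ s(u, v) ∈ X ∧ c s(u, v) = n)).card := by
              have := card_nsmul_le_sum F (fun n => (P.filter
                (fun u => ∃ v, Λ.Adj u v ∧ s(u, v) ∈ X ∧ c s(u, v) = n)).card) bal ?_
              · rw [smul_eq_mul] at this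
                exact this
              · intro n hn
                rw [hF, mem_filter] at hn
                obtain ⟨_, P', hP', hyP', hb⟩ := hn
                have hPP : P' = P := by
                  by_contra hne
                  exact disjoint_left.1 (hJ P' hP' P hP hne) hyP' hyP
                rw [hPP] at hb
                exact hb
            have h2 : ∑ n ∈ F,
                (P.filter (fun u => ∃ v, Λ.Adj u v ∧ s(u, v) ∈ X ∧ c s(u, v) = n)).card =
                ∑ u ∈ P, (F.filter
                  (fun n => ∃ v, Λ.Adj u v ∧ s(u, v) ∈ X ∧ c s(u, v) = n)).card := by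
              simp only [card_filter]
              exact sum_comm
            have h3 : ∀ u ∈ P, (F.filter
                  (fun n => ∃ v, Λ.Adj u v ∧ s(u, v) ∈ X ∧ c s(u, v) = n)).card ≤
                nb Λ univ u := by
              intro u _
              have h4 : F.filter (fun n => ∃ v, Λ.Adj u v ∧ s(u, v) ∈ X ∧ c s(u, v) = n) ⊆
                  (univ.filter (fun v => Λ.Adj u v)).image (fun v => c s(u, v)) := by
                intro n hn
                rw [mem_filter] at hn
                obtain ⟨_, v, hv1, _, hv3⟩ := hn
                exact mem_image.2 ⟨v, mem_filter.2 ⟨mem_univ _, hv1⟩, hv3⟩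
              exact (card_le_card h4).trans card_image_le
            have h5 := sum_le_sum h3
            have h6 := hsum P hP
            have h7 : F.card * bal ≤ σ * bal := by
              rw [h2] at h1
              exact (h1.trans h5).trans h6
            exact Nat.le_of_mul_le_mul_right h7 hbal
          · have h1 : (range N).filter (fun n => ∃ P ∈ J, y ∈ P ∧ bal ≤
              (P.filter (fun u => ∃ v, Λ.Adj u v ∧ s(u, v) ∈ X ∧ c s(u, v) = n)).card) = ∅ := by
              rw [filter_eq_empty_iff]
              rintro n _ ⟨P, hP, hyP, _⟩
              exact hy ⟨P, hP, hyP⟩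
            rw [h1, card_empty]
            exact Nat.zero_le _
        set Fu : V → Finset ℕ := fun y => (range N).filter (fun n => ∃ P ∈ J, y ∈ P ∧ bal ≤
            (P.filter (fun u => ∃ v, Λ.Adj u v ∧ s(u, v) ∈ X ∧ c s(u, v) = n)).card) with hFu
        set U : Finset ℕ := ((univ.filter (fun v => Λ.Adj a v)).image (fun x => c s(a, x)) ∪
          (univ.filter (fun v => Λ.Adj b v)).image (fun x => c s(b, x))) ∪ (Fu a ∪ Fu b) with hU
        have hcard : U.card < (range N).card := by
          rw [card_range]
          have h1 : ((univ.filter (fun v => Λ.Adj a v)).image (fun x => c s(a, x))).card ≤ l :=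
            card_image_le.trans (hdeg a)
          have h2 : ((univ.filter (fun v => Λ.Adj b v)).image (fun x => c s(b, x))).card ≤ l :=
            card_image_le.trans (hdeg b)
          have h3 := hfull a
          have h4 := hfull b
          have h5 := card_union_le ((univ.filter (fun v => Λ.Adj a v)).image (fun x => c s(a, x)))
            ((univ.filter (fun v => Λ.Adj b v)).image (fun x => c s(b, x)))
          have h6 := card_union_le (Fu a) (Fu b)
          have h7 : U.card ≤ _ := card_union_le _ _
          have h8 : (Fu a).card ≤ σ := h3
          have h9 : (Fu b).card ≤ σ := h4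
          omega
        obtain ⟨x, hx, hxU⟩ := exists_mem_notMem_of_card_lt_card hcard
        have hxN := mem_range.1 hx
        rw [hU, mem_union, mem_union, mem_union, not_or, not_or, not_or] at hxU
        obtain ⟨⟨hxa, hxb⟩, hxFa, hxFb⟩ := hxU
        have hxa' : ∀ y, Λ.Adj a y → c s(a, y) ≠ x := fun y hy h =>
          hxa (mem_image.2 ⟨y, mem_filter.2 ⟨mem_univ _, hy⟩, h⟩)
        have hxb' : ∀ y, Λ.Adj b y → c s(b, y) ≠ x := fun y hy h =>
          hxb (mem_image.2 ⟨y, mem_filter.2 ⟨mem_univ _, hy⟩, h⟩)
        have hbalab : ∀ y, x ∉ Fu y → ∀ P ∈ J, y ∈ P →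
            (P.filter (fun u => ∃ v, Λ.Adj u v ∧ s(u, v) ∈ X ∧ c s(u, v) = x)).card < bal := by
          intro y hy P hP hyP
          by_contra hcon
          exact hy (mem_filter.2 ⟨hx, P, hP, hyP, not_lt.1 hcon⟩)
        refine ⟨Function.update c s(a, b) x, ?_, ?_, ?_⟩
        · intro e' he' hed
          by_cases h : e' = s(a, b)
          · rw [h, Function.update_self]
            exact hxN
          · rw [Function.update_of_ne h]
            exact hc1 e' ((mem_insert.1 he').resolve_left h) hed
        · intro u v v' h1 h2 hne h3 h4
          by_cases g1 : s(u, v) = s(a, b)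
          · have g2 : s(u, v') ≠ s(a, b) := by
              rw [← g1]
              intro g2
              rw [Sym2.eq_iff] at g2
              rcases g2 with ⟨_, g2⟩ | ⟨g2, g3⟩
              · exact hne g2.symm
              · exact h1.ne g2
            rw [g1, Function.update_self, Function.update_of_ne g2]
            rw [Sym2.eq_iff] at g1
            rcases g1 with ⟨rfl, rfl⟩ | ⟨rfl, rfl⟩
            · exact (hxa' v' h2).symm
            · exact (hxb' v' h2).symm
          · by_cases g2 : s(u, v') = s(a, b)
            · rw [g2, Function.update_self, Function.update_of_ne g1]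
              rw [Sym2.eq_iff] at g2
              rcases g2 with ⟨rfl, rfl⟩ | ⟨rfl, rfl⟩
              · exact hxa' v h1
              · exact hxb' v h1
            · rw [Function.update_of_ne g1, Function.update_of_ne g2]
              exact hc2 u v v' h1 h2 hne ((mem_insert.1 h3).resolve_left g1)
                ((mem_insert.1 h4).resolve_left g2)
        · intro P hP n
          -- a vertex which is new
          have hnew : ∀ u ∈ P, (∃ v, Λ.Adj u v ∧ s(u, v) ∈ insert s(a, b) X ∧
              Function.update c s(a, b) x s(u, v) = n) →
              (∃ v, Λ.Adj u v ∧ s(u, v) ∈ X ∧ c s(u, v) = n) ∨ (n = x ∧ (u = a ∨ u = b)) := by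
            rintro u _ ⟨v, hv1, hv2, hv3⟩
            by_cases h : s(u, v) = s(a, b)
            · rw [h, Function.update_self] at hv3
              rw [Sym2.eq_iff] at h
              refine Or.inr ⟨hv3.symm, ?_⟩
              rcases h with h | h
              · exact Or.inl h.1
              · exact Or.inr h.1
            · rw [Function.update_of_ne h] at hv3
              exact Or.inl ⟨v, hv1, (mem_insert.1 hv2).resolve_left h, hv3⟩
          by_cases hn : n = x
          · subst hn
            by_cases haP : a ∈ P
            · have hbP : b ∉ P := fun hbP => hin P hP a haP b hbP hee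
              have h1 := hbalab a hxFa P hP haP
              have h2 : P.filter (fun u => ∃ v, Λ.Adj u v ∧ s(u, v) ∈ insert s(a, b) X ∧
                  Function.update c s(a, b) n s(u, v) = n) ⊆ insert a (P.filter
                    (fun u => ∃ v, Λ.Adj u v ∧ s(u, v) ∈ X ∧ c s(u, v) = n)) := by
                intro u hu
                rw [mem_filter] at hu
                rw [mem_insert, mem_filter]
                rcases hnew u hu.1 hu.2 with h3 | ⟨_, h3 | h3⟩
                · exact Or.inr ⟨hu.1, h3⟩
                · exact Or.inl h3
                · exact absurd (h3 ▸ hu.1) hbP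
              have h3 := (card_le_card h2).trans (card_insert_le _ _)
              omega
            · by_cases hbP : b ∈ P
              · have h1 := hbalab b hxFb P hP hbP
                have h2 : P.filter (fun u => ∃ v, Λ.Adj u v ∧ s(u, v) ∈ insert s(a, b) X ∧
                    Function.update c s(a, b) n s(u, v) = n) ⊆ insert b (P.filter
                      (fun u => ∃ v, Λ.Adj u v ∧ s(u, v) ∈ X ∧ c s(u, v) = n)) := by
                  intro u hu
                  rw [mem_filter] at hu
                  rw [mem_insert, mem_filter]
                  rcases hnew u hu.1 hu.2 with h3 | ⟨_, h3 | h3⟩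
                  · exact Or.inr ⟨hu.1, h3⟩
                  · exact absurd (h3 ▸ hu.1) haP
                  · exact Or.inl h3
                have h3 := (card_le_card h2).trans (card_insert_le _ _)
                omega
              · refine le_trans (card_le_card ?_) (hc3 P hP n)
                intro u hu
                rw [mem_filter] at hu ⊢
                rcases hnew u hu.1 hu.2 with h3 | ⟨_, h3 | h3⟩
                · exact ⟨hu.1, h3⟩
                · exact absurd (h3 ▸ hu.1) haP
                · exact absurd (h3 ▸ hu.1) hbP
          · refine le_trans (card_le_card ?_) (hc3 P hP n)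
            intro u hu
            rw [mem_filter] at hu ⊢
            rcases hnew u hu.1 hu.2 with h3 | ⟨h3, _⟩
            · exact ⟨hu.1, h3⟩
            · exact absurd h3 hn
      · refine ⟨c, ?_, ?_, ?_⟩
        · intro e' he' hed
          rcases mem_insert.1 he' with h | h
          · exact absurd (h ▸ hed) hee
          · exact hc1 e' h hed
        · intro u v v' h1 h2 hne h3 h4
          refine hc2 u v v' h1 h2 hne ?_ ?_
          · refine (mem_insert.1 h3).resolve_left fun h => hee ?_
            rw [← h, SimpleGraph.mem_edgeSet]
            exact h1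
          · refine (mem_insert.1 h4).resolve_left fun h => hee ?_
            rw [← h, SimpleGraph.mem_edgeSet]
            exact h2
        · intro P hP n
          refine le_trans (card_le_card ?_) (hc3 P hP n)
          intro u hu
          rw [mem_filter] at hu ⊢
          obtain ⟨hu1, v, hv1, hv2, hv3⟩ := hu
          refine ⟨hu1, v, hv1, (mem_insert.1 hv2).resolve_left fun h => hee ?_, hv3⟩
          rw [← h, SimpleGraph.mem_edgeSet]
          exact hv1
  obtain ⟨c, hc1, hc2, hc3⟩ := key univ
  refine ⟨fun u v => c s(u, v), ⟨fun u v => congrArg c Sym2.eq_swap, fun u v huv =>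
    hc1 _ (mem_univ _) huv, fun u v w h1 h2 h3 => hc2 u v w h1 h2 h3 (mem_univ _) (mem_univ _)⟩,
    fun P hP n => ?_⟩
  refine le_trans (card_le_card ?_) (hc3 P hP n)
  intro u hu
  rw [mem_filter] at hu ⊢
  obtain ⟨hu1, v, hv1, hv2⟩ := hu
  exact ⟨hu1, v, hv1, mem_univ _, hv2⟩

end Pool.Agent.H31.HV
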