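import Pool.Agent.H21.HV.Defs
import Pool.Graph.R_pool_sql_team_seeded_efc1946e.K1H37.HYC.Part

/-!
# Project HV, part SEL: choice of the mids
-/

set_option autoImplicit false
open Classical Finset

namespace Pool.Agent.H31.HV

open Pool.Agent.H21.HV

theorem logsqrt (c : ℝ) (hc : 0 < c) : ∃ D0 : ℕ, ∀ D : ℕ, D0 ≤ D →
    Real.sqrt ((D : ℝ) + 1) * Real.log D ≤ c * D := by
  have h1 : (fun x : ℝ => Real.log x ^ 2) =o[Filter.atTop] (id : ℝ → ℝ) :=
    Real.isLittleO_pow_log_id_atTop
  have h2 := h1.bound (show (0 : ℝ) < c ^ 2 / 2 by positivity)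
  rw [Filter.eventually_atTop] at h2
  obtain ⟨x0, hx0⟩ := h2
  refine ⟨⌈x0⌉₊ + 1, fun D hD => ?_⟩
  have hD1 : x0 ≤ (D : ℝ) := (Nat.le_ceil x0).trans (by exact_mod_cast (by omega : ⌈x0⌉₊ ≤ D))
  have hD2 : (1 : ℝ) ≤ D := by exact_mod_cast (by omega : 1 ≤ D)
  have h3 := hx0 D hD1
  simp only [id, Real.norm_eq_abs] at h3
  rw [abs_of_nonneg (by positivity), abs_of_nonneg (by linarith)] at h3
  have h4 : (Real.sqrt ((D : ℝ) + 1) * Real.log D) ^ 2 ≤ (c * D) ^ 2 := by
    rw [mul_pow, Real.sq_sqrt (by linarith)]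
    have h5 : ((D : ℝ) + 1) * Real.log D ^ 2 ≤ (2 * D) * (c ^ 2 / 2 * D) :=
      mul_le_mul (by linarith) h3 (by positivity) (by linarith)
    refine h5.trans (le_of_eq (by ring))
  exact (le_abs_self _).trans (abs_le_of_sq_le_sq h4 (by positivity))

theorem t_SEL : S_SEL := by
  intro R hR
  obtain ⟨D1, hD1⟩ := Pool.Agent.K1H37.HYC.t_PART R hR
  obtain ⟨D2, hD2⟩ := logsqrt (1 / (4 * (R : ℝ) ^ 2)) (by positivity)
  refine ⟨D1 + D2 + 2, fun D hD V _ G I s hdeg hdis hI hs => ?_⟩
  have hRr : (1 : ℝ) ≤ R := by exact_mod_cast hR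
  have hDr : (2 : ℝ) ≤ D := by exact_mod_cast (by omega : 2 ≤ D)
  have hls := hD2 D (by omega)
  have hD4 : D + 1 ≤ D ^ 4 := by
    have h1 : D ^ 2 ≤ D ^ 4 := Nat.pow_le_pow_right (by omega) (by omega)
    nlinarith
  obtain ⟨c, hc⟩ := hD1 D (by omega) V (V ⊕ {K // K ∈ I})
    (fun j x => match j with
      | Sum.inl v => if G.Adj v x then 1 else 0
      | Sum.inr K => if x ∈ K.1 then 1 else 0) 1 one_pos
    (by
      rintro (v | K) x
      · by_cases h : G.Adj v x
        · simp [h]
        · simp [h]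
      · by_cases h : x ∈ K.1
        · simp [h]
        · simp [h])
    (by
      rintro (v | K)
      · have h1 : (univ.filter (fun x : V => (if G.Adj v x then (1 : ℝ) else 0) ≠ 0)).card ≤
            nb G univ v := by
          apply card_le_card
          intro x hx
          rw [mem_filter] at hx ⊢
          refine ⟨mem_univ _, ?_⟩
          by_contra h
          exact hx.2 (if_neg h)
        exact (h1.trans (hdeg v)).trans (by omega)
      · have h1 : (univ.filter (fun x : V => (if x ∈ K.1 then (1 : ℝ) else 0) ≠ 0)).card ≤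
            K.1.card := by
          apply card_le_card
          intro x hx
          rw [mem_filter] at hx
          by_contra h
          exact hx.2 (if_neg h)
        exact (h1.trans (hI K.1 K.2).2).trans hD4)
    (by
      intro x
      set S : Finset (V ⊕ {K // K ∈ I}) := (univ.filter (fun v => G.Adj x v)).image Sum.inl ∪
        (univ.filter (fun K : {K // K ∈ I} => x ∈ K.1)).image Sum.inr with hS
      have h1 : S.card ≤ D + 1 := by
        have h2 : ((univ.filter (fun v => G.Adj x v)).image
            (Sum.inl : V → V ⊕ {K // K ∈ I})).card ≤ D := card_image_le.trans (hdeg x)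
        have h3 : ((univ.filter (fun K : {K // K ∈ I} => x ∈ K.1)).image
            (Sum.inr : _ → V ⊕ {K // K ∈ I})).card ≤ 1 := by
          refine card_image_le.trans ?_
          rw [card_le_one]
          intro K hK K' hK'
          rw [mem_filter] at hK hK'
          by_contra hne
          exact disjoint_left.1 (hdis K.1 K.2 K'.1 K'.2 (fun h => hne (Subtype.ext h)))
            hK.2 hK'.2
        exact (card_union_le _ _).trans (by omega)
      refine le_trans (card_le_card ?_) (h1.trans hD4)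
      rintro (v | K) hj
      · rw [mem_filter] at hj
        rw [hS, mem_union]
        refine Or.inl (mem_image.2 ⟨v, mem_filter.2 ⟨mem_univ _, ?_⟩, rfl⟩)
        by_contra h
        exact hj.2 (if_neg fun h' => h h'.symm)
      · rw [mem_filter] at hj
        rw [hS, mem_union]
        refine Or.inr (mem_image.2 ⟨K, mem_filter.2 ⟨mem_univ _, ?_⟩, rfl⟩)
        by_contra h
        exact hj.2 (if_neg h))
  have hR0 : 0 < R := hR
  set c0 : Fin R := ⟨0, hR0⟩ with hc0
  set C : Finset V := univ.filter (fun x => c x = c0) with hC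
  -- degrees into the cell
  have hv : ∀ v, R * nb G C v ≤ 2 * D := by
    intro v
    have h1 := hc (Sum.inl v) c0
    simp only [Finset.sum_ite, Finset.sum_const_zero, add_zero, Finset.sum_const,
      nsmul_eq_mul, mul_one, one_mul] at h1
    have h2 : ((C.filter (fun x => G.Adj v x)).card : ℝ) = nb G C v := rfl
    have h3 : ((univ.filter (fun x => G.Adj v x)).card : ℝ) = nb G univ v := rfl
    rw [← hC, h2, h3] at h1
    have h4 : (nb G univ v : ℝ) ≤ D := by exact_mod_cast hdeg v
    have h5 : Real.sqrt (nb G univ v : ℝ) ≤ Real.sqrt ((D : ℝ) + 1) :=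
      Real.sqrt_le_sqrt (by linarith)
    have h6 : 0 ≤ Real.log D := Real.log_natCast_nonneg D
    have h7 : Real.sqrt (nb G univ v : ℝ) * Real.log D ≤ 1 / (4 * (R : ℝ) ^ 2) * D :=
      (mul_le_mul_of_nonneg_right h5 h6).trans hls
    have h8 : (R : ℝ) * nb G C v ≤ 2 * D := by
      have h9 : (R : ℝ) * nb G C v ≤ R * ((nb G univ v : ℝ) / R + 1 / (4 * (R : ℝ) ^ 2) * D) :=
        mul_le_mul_of_nonneg_left (h1.trans (by linarith)) (by linarith)
      have h10 : (R : ℝ) * ((nb G univ v : ℝ) / R + 1 / (4 * (R : ℝ) ^ 2) * D) =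
          nb G univ v + D / (4 * R) := by
        field_simp
      have h11 : (D : ℝ) / (4 * R) ≤ D := by
        rw [div_le_iff₀ (by linarith)]
        nlinarith
      linarith
    exact_mod_cast h8
  -- cliques in the cell
  have hK : ∀ K ∈ I, 4 * s ≤ (K ∩ C).card := by
    intro K hKI
    have h1 : ∀ t : Fin R, ((K.filter (fun x => c x = t)).card : ℝ) ≤
        (K.card : ℝ) / R + Real.sqrt K.card * Real.log D := by
      intro t
      have h1 := hc (Sum.inr ⟨K, hKI⟩) t
      simp only [Finset.sum_ite, Finset.sum_const_zero, add_zero, Finset.sum_const,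
        nsmul_eq_mul, mul_one, one_mul] at h1
      have h2 : ((univ.filter (fun x => c x = t)).filter (fun x => x ∈ K)) =
          K.filter (fun x => c x = t) := by
        ext x
        simp only [mem_filter, mem_univ, true_and]
        exact and_comm
      have h3 : (univ.filter (fun x => x ∈ K)) = K := by
        ext x
        simp only [mem_filter, mem_univ, true_and]
      rw [h2, h3] at h1
      exact h1
    have h2 : (K.card : ℝ) = ∑ t : Fin R, ((K.filter (fun x => c x = t)).card : ℝ) := by
      have := card_eq_sum_card_fiberwise (s := K) (t := (univ : Finset (Fin R))) (f := c)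
        (fun x _ => mem_coe.2 (mem_univ _))
      exact_mod_cast this
    rw [← Finset.add_sum_erase _ _ (mem_univ c0)] at h2
    have h3 : ∑ t ∈ univ.erase c0, ((K.filter (fun x => c x = t)).card : ℝ) ≤
        ((R : ℝ) - 1) * ((K.card : ℝ) / R + Real.sqrt K.card * Real.log D) := by
      have h4 := sum_le_card_nsmul (univ.erase c0)
        (fun t => ((K.filter (fun x => c x = t)).card : ℝ)) _ (fun t _ => h1 t)
      rw [card_erase_of_mem (mem_univ _), card_univ, Fintype.card_fin, nsmul_eq_mul,
        Nat.cast_sub hR, Nat.cast_one] at h4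
      exact h4
    have h4 : K.filter (fun x => c x = c0) = K ∩ C := by
      ext x
      simp only [mem_filter, mem_inter, hC, mem_univ, true_and]
    rw [h4] at h2
    obtain ⟨hK1, hK2⟩ := hI K hKI
    have hK1r : (D : ℝ) ≤ 2 * K.card := by exact_mod_cast hK1
    have hK2r : (K.card : ℝ) ≤ D + 1 := by exact_mod_cast hK2
    have h6 : 0 ≤ Real.log D := Real.log_natCast_nonneg D
    have h7 : Real.sqrt (K.card : ℝ) * Real.log D ≤ 1 / (4 * (R : ℝ) ^ 2) * D :=
      (mul_le_mul_of_nonneg_right (Real.sqrt_le_sqrt hK2r) h6).trans hls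
    have h8 : ((R : ℝ) - 1) * (Real.sqrt (K.card : ℝ) * Real.log D) ≤
        R * (1 / (4 * (R : ℝ) ^ 2) * D) := by
      apply mul_le_mul (by linarith) h7 (by positivity) (by linarith)
    have h9 : (R : ℝ) * (1 / (4 * (R : ℝ) ^ 2) * D) = D / (4 * R) := by
      field_simp
    have h10 : (K.card : ℝ) - ((R : ℝ) - 1) * ((K.card : ℝ) / R) = K.card / R := by
      field_simp
      ring
    have h11 : (D : ℝ) / (2 * R) ≤ K.card / R := by
      rw [div_le_div_iff₀ (by linarith) (by linarith)]
      nlinarith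
    have h12 : (D : ℝ) / (2 * R) - D / (4 * R) = D / (4 * R) := by
      field_simp
      ring
    have h13 : (4 : ℝ) * s ≤ D / (4 * R) := by
      rw [le_div_iff₀ (by linarith)]
      have : (16 : ℝ) * R * s ≤ D := by exact_mod_cast hs
      nlinarith
    have h14 : (4 : ℝ) * s ≤ (K ∩ C).card := by nlinarith
    exact_mod_cast h14
  have hZ : ∀ K : Finset V, ∃ Z : Finset V, Z ⊆ C ∧ (K ∈ I → Z ⊆ K ∧ Z.card = 4 * s) := by
    intro K
    by_cases hKI : K ∈ I
    · obtain ⟨Z, hZ1, hZ2⟩ := exists_subset_card_eq (hK K hKI)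
      exact ⟨Z, hZ1.trans inter_subset_right, fun _ => ⟨hZ1.trans inter_subset_left, hZ2⟩⟩
    · exact ⟨∅, empty_subset _, fun h => absurd h hKI⟩
  choose Z hZ1 hZ2 using hZ
  refine ⟨Z, hZ2, fun v => le_trans (Nat.mul_le_mul_left R ?_) (hv v)⟩
  apply card_le_card
  intro u hu
  rw [mem_filter] at hu ⊢
  refine ⟨?_, hu.2⟩
  obtain ⟨K, _, hK2⟩ := mem_biUnion.1 hu.1
  exact hZ1 K hK2

end Pool.Agent.H31.HV
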