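import Pool.Agent.H21.HV.Defs

/-!
# Project HV, part TOP: edge colourings with tight lists at the mids (from LIG, HAL, AAE)
-/

set_option autoImplicit false
open Classical Finset

namespace Pool.Agent.H31.HV

open Pool.Agent.H21.HV

section

variable {V : Type}

/-- the light edges -/
def lig (E : SimpleGraph V) (A : Finset V) (I : Finset (Finset V))
    (Z : Finset V → Finset V) : SimpleGraph V where
  Adj u v := E.Adj u v ∧ (u ∈ ZZ I Z ∨ v ∈ ZZ I Z) ∧
    ¬ ∃ K ∈ I, (u ∈ Z K ∧ v ∈ A ∩ K) ∨ (v ∈ Z K ∧ u ∈ A ∩ K)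
  symm := ⟨fun _ _ h => ⟨h.1.symm, h.2.1.symm, fun ⟨K, hK, hh⟩ => h.2.2 ⟨K, hK, hh.symm⟩⟩⟩
  loopless := ⟨fun u h => E.loopless.irrefl u h.1⟩

/-- the edges inside `A` -/
def ins (E : SimpleGraph V) (A : Finset V) : SimpleGraph V where
  Adj u v := E.Adj u v ∧ u ∈ A ∧ v ∈ A
  symm := ⟨fun _ _ h => ⟨h.1.symm, h.2.2, h.2.1⟩⟩
  loopless := ⟨fun u h => E.loopless.irrefl u h.1⟩

theorem mem_nb (G : SimpleGraph V) (S : Finset V) (v u : V) :
    u ∈ S.filter (fun u => G.Adj v u) ↔ u ∈ S ∧ G.Adj v u := mem_filter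

theorem mem_ZZ {I : Finset (Finset V)} {Z : Finset V → Finset V} {v : V} :
    v ∈ ZZ I Z ↔ ∃ K ∈ I, v ∈ Z K := by
  rw [ZZ, mem_biUnion]

theorem nb_le {G G' : SimpleGraph V} {S S' : Finset V} {v : V}
    (h : ∀ u ∈ S, G.Adj v u → u ∈ S' ∧ G'.Adj v u) : nb G S v ≤ nb G' S' v := by
  apply card_le_card
  intro u hu
  rw [mem_filter] at hu ⊢
  exact h u hu.1 hu.2

theorem nb_zero {G : SimpleGraph V} {S : Finset V} {v : V}
    (h : ∀ u ∈ S, ¬ G.Adj v u) : nb G S v = 0 := by
  rw [nb, card_eq_zero, filter_eq_empty_iff]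
  exact fun u hu => h u hu

end

theorem t_TOP (hLIG : S_LIG) (hHAL : S_HAL) (hAAE : S_AAE) : S_TOP := by
  intro η hη
  obtain ⟨D0, hD0⟩ := hAAE η hη
  refine ⟨D0 + 1000, fun D hD V _ E A I Z s t h d N X hT hs ht hh hd hN hX => ?_⟩
  have hDZ : ∀ z ∈ ZZ I Z, z ∉ A := fun z hz hA => disjoint_left.1 hT.AZ hA hz
  have hKK : ∀ K ∈ I, ∀ K' ∈ I, ∀ v, v ∈ K → v ∈ K' → K = K' := by
    intro K hK K' hK' v h1 h2
    by_contra hne
    exact disjoint_left.1 (hT.dis K hK K' hK' hne) h1 h2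
  have hZin : ∀ K ∈ I, ∀ z ∈ Z K, z ∈ ZZ I Z := fun K hK z hz => mem_ZZ.2 ⟨K, hK, hz⟩
  have hAK : ∀ K ∈ I, ∀ z ∈ Z K, (A ∩ K).card + nb E (univ \ (A ∩ K)) z ≤ X z := by
    intro K hK z hz
    refine le_trans ?_ (hX z (hZin K hK z hz)).1
    have h1 : (A ∩ K) ∪ (univ \ (A ∩ K)).filter (fun u => E.Adj z u) ⊆
        univ.filter (fun u => E.Adj z u) := by
      intro u hu
      rw [mem_union] at hu
      rw [mem_filter]
      rcases hu with hu | hu
      · exact ⟨mem_univ _, hT.com K hK z hz u hu⟩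
      · exact ⟨mem_univ _, (mem_filter.1 hu).2⟩
    have h2 : Disjoint (A ∩ K) ((univ \ (A ∩ K)).filter (fun u => E.Adj z u)) := by
      rw [disjoint_left]
      intro u hu hu'
      rw [mem_filter, mem_sdiff] at hu'
      exact hu'.1.2 hu
    have h3 := card_le_card h1
    rw [card_union_of_disjoint h2] at h3
    exact h3
  -- the light edges
  have hLz : ∀ K ∈ I, ∀ z ∈ Z K, nb (lig E A I Z) univ z ≤ nb E (univ \ (A ∩ K)) z := by
    intro K hK z hz
    apply nb_le
    intro u _ hu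
    refine ⟨mem_sdiff.2 ⟨mem_univ _, fun hu' => hu.2.2 ⟨K, hK, Or.inl ⟨hz, hu'⟩⟩⟩, hu.1⟩
  have hLA : ∀ u ∈ A, nb (lig E A I Z) univ u ≤ h := by
    intro u hu
    refine le_trans (nb_le (S' := ZZ I Z) ?_) (hT.la u hu)
    intro v _ huv
    refine ⟨?_, huv.1⟩
    rcases huv.2.1 with h1 | h1
    · exact absurd hu (hDZ u h1)
    · exact h1
  have hLu : ∀ K ∈ I, ∀ u ∈ A ∩ K, nb (lig E A I Z) univ u ≤ t := by
    intro K hK u hu
    refine le_trans (nb_le (S' := ZZ I Z \ Z K) ?_) (hT.lu K hK u hu)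
    intro v _ huv
    have huA := (mem_inter.1 hu).1
    refine ⟨?_, huv.1⟩
    rw [mem_sdiff]
    rcases huv.2.1 with h1 | h1
    · exact absurd huA (hDZ u h1)
    · exact ⟨h1, fun h2 => huv.2.2 ⟨K, hK, Or.inr ⟨h2, hu⟩⟩⟩
  obtain ⟨cL, hcL, hbal⟩ := hLIG V (lig E A I Z) (I.image (fun K => A ∩ K))
    (max (4 * s + t) h) (17 * (t + 1)) (D / 16) (D / 4) (by omega)
    (by
      intro P hP P' hP' hne
      rw [mem_image] at hP hP'
      obtain ⟨K, hK, rfl⟩ := hP
      obtain ⟨K', hK', rfl⟩ := hP'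
      have hne' : K ≠ K' := fun h => hne (by rw [h])
      exact disjoint_of_subset_left inter_subset_right
        (disjoint_of_subset_right inter_subset_right (hT.dis K hK K' hK' hne')))
    (by
      intro P hP u hu v hv huv
      rw [mem_image] at hP
      obtain ⟨K, hK, rfl⟩ := hP
      rw [mem_inter] at hu hv
      rcases huv.2.1 with h1 | h1
      · exact hDZ u h1 hu.1
      · exact hDZ v h1 hv.1)
    (by
      intro v
      by_cases hv : v ∈ A
      · exact (hLA v hv).trans (le_max_right _ _)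
      · by_cases hz : v ∈ ZZ I Z
        · obtain ⟨K, hK, hvK⟩ := mem_ZZ.1 hz
          exact ((hLz K hK v hvK).trans (hT.lz K hK v hvK)).trans (le_max_left _ _)
        · rw [nb_zero]
          · exact Nat.zero_le _
          · intro u _ hu
            rcases hT.supp v u hu.1 with h1 | h1
            · exact hv h1
            · exact hz h1)
    (by
      intro P hP
      rw [mem_image] at hP
      obtain ⟨K, hK, rfl⟩ := hP
      have h1 : ∑ u ∈ A ∩ K, nb (lig E A I Z) univ u ≤ (A ∩ K).card * t := by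
        have := sum_le_card_nsmul (A ∩ K) (fun u => nb (lig E A I Z) univ u) t (hLu K hK)
        rw [smul_eq_mul] at this
        exact this
      refine h1.trans ?_
      have h2 : (A ∩ K).card ≤ D + 1 := (card_le_card inter_subset_right).trans (hT.cardK K hK)
      have h3 : (A ∩ K).card * t ≤ (D + 1) * t := Nat.mul_le_mul_right t h2
      have h4 : D + 1 ≤ 17 * (D / 16) := by omega
      have h5 : (D + 1) * t ≤ 17 * (D / 16) * t := Nat.mul_le_mul_right t h4
      have h6 : 17 * (D / 16) * t ≤ 17 * (t + 1) * (D / 16) := by nlinarith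
      omega)
    (by
      have h1 : max (4 * s + t) h ≤ 4 * s + t + h := by
        apply max_le <;> omega
      omega)
  -- the heavy edges
  have hHal : ∀ K : Finset V, ∃ f : V → V → ℕ, K ∈ I →
      (∀ z ∈ Z K, ∀ u ∈ A ∩ K, f z u < X z ∧
        (∀ v, (lig E A I Z).Adj z v → cL z v ≠ f z u) ∧
        (∀ v, (lig E A I Z).Adj u v → cL u v ≠ f z u)) ∧
      (∀ z ∈ Z K, ∀ u ∈ A ∩ K, ∀ u' ∈ A ∩ K, f z u = f z u' → u = u') ∧
      ∀ u ∈ A ∩ K, ∀ z ∈ Z K, ∀ z' ∈ Z K, f z u = f z' u → z = z' := by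
    intro K
    by_cases hK : K ∈ I
    · obtain ⟨f, hf1, hf2, hf3⟩ := hHAL V (A ∩ K) (Z K)
        (fun u => (univ.filter (fun v => (lig E A I Z).Adj u v)).image (cL u))
        (fun z => range (X z) \ (univ.filter (fun v => (lig E A I Z).Adj z v)).image (cL z))
        t (D / 16)
        (by
          intro z hz
          have h1 := le_card_sdiff
            ((univ.filter (fun v => (lig E A I Z).Adj z v)).image (cL z)) (range (X z))
          rw [card_range] at h1
          have h2 : ((univ.filter (fun v => (lig E A I Z).Adj z v)).image (cL z)).card ≤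
            nb (lig E A I Z) univ z := card_image_le
          have h3 := hLz K hK z hz
          have h4 := hAK K hK z hz
          omega)
        (by
          intro u hu
          exact le_trans card_image_le (hLu K hK u hu))
        (by
          intro n
          refine le_trans (le_of_eq ?_) (hbal (A ∩ K) (mem_image.2 ⟨K, hK, rfl⟩) n)
          congr 1
          ext u
          simp only [mem_filter, mem_image, mem_univ, true_and])
        (by
          have h1 := hT.cardZ K hK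
          have h2 := hT.cardA K hK
          omega)
      refine ⟨f, fun _ => ⟨?_, hf2, hf3⟩⟩
      intro z hz u hu
      obtain ⟨h1, h2⟩ := hf1 z hz u hu
      rw [mem_sdiff, mem_range] at h1
      refine ⟨h1.1, fun v hv h3 => h1.2 ?_, fun v hv h3 => h2 ?_⟩
      · exact mem_image.2 ⟨v, mem_filter.2 ⟨mem_univ _, hv⟩, h3⟩
      · exact mem_image.2 ⟨v, mem_filter.2 ⟨mem_univ _, hv⟩, h3⟩
    · exact ⟨fun _ _ => 0, fun h => absurd h hK⟩
  choose fK hfK using hHal
  -- the colour of the heavy edges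
  obtain ⟨kk, hkk⟩ : ∃ kk : V → Finset V, ∀ K ∈ I, ∀ z ∈ Z K, kk z = K := by
    refine ⟨fun z => if h : ∃ K ∈ I, z ∈ Z K then h.choose else ∅, ?_⟩
    intro K hK z hz
    have h : ∃ K ∈ I, z ∈ Z K := ⟨K, hK, hz⟩
    simp only [dif_pos h]
    exact hKK _ h.choose_spec.1 K hK z (hT.ZK _ h.choose_spec.1 h.choose_spec.2) (hT.ZK K hK hz)
  -- colours of the edges meeting the mids
  let cz : V → V → ℕ := fun z u => if (lig E A I Z).Adj z u then cL z u else fK (kk z) z u
  -- type of the edges at a mid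
  have htype : ∀ z ∈ ZZ I Z, ∀ u, E.Adj z u → ¬ (lig E A I Z).Adj z u →
      ∃ K ∈ I, z ∈ Z K ∧ u ∈ A ∩ K := by
    intro z hz u hzu hn
    by_contra hcon
    apply hn
    refine ⟨hzu, Or.inl hz, ?_⟩
    rintro ⟨K, hK, h1 | h1⟩
    · exact hcon ⟨K, hK, h1⟩
    · exact hDZ z hz (mem_inter.1 h1.2).1
  have hczL : ∀ z u, (lig E A I Z).Adj z u → cz z u = cL z u := by
    intro z u h1
    simp only [cz, if_pos h1]
  have hczH : ∀ z u, ¬ (lig E A I Z).Adj z u → ∀ K ∈ I, z ∈ Z K → cz z u = fK K z u := by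
    intro z u h1 K hK hz
    simp only [cz, if_neg h1, hkk K hK z hz]
  have hheavy : ∀ K ∈ I, ∀ z ∈ Z K, ∀ u ∈ A ∩ K, ¬ (lig E A I Z).Adj z u := by
    intro K hK z hz u hu h1
    exact h1.2.2 ⟨K, hK, Or.inl ⟨hz, hu⟩⟩
  have hD4 : ∀ z ∈ ZZ I Z, D / 4 ≤ X z := by
    intro z hz
    obtain ⟨K, hK, hzK⟩ := mem_ZZ.1 hz
    have h1 := hAK K hK z hzK
    have h2 := hT.cardA K hK
    omega
  have hczX : ∀ z ∈ ZZ I Z, ∀ u, E.Adj z u → cz z u < X z := by
    intro z hz u hzu
    by_cases h1 : (lig E A I Z).Adj z u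
    · rw [hczL z u h1]
      exact (hcL.2.1 z u h1).trans_le (hD4 z hz)
    · obtain ⟨K, hK, h2, h3⟩ := htype z hz u hzu h1
      rw [hczH z u h1 K hK h2]
      exact ((hfK K hK).1 z h2 u h3).1
  -- different edges at a mid
  have hczz : ∀ z ∈ ZZ I Z, ∀ u v, E.Adj z u → E.Adj z v → u ≠ v → cz z u ≠ cz z v := by
    intro z hz u v hu hv huv
    by_cases h1 : (lig E A I Z).Adj z u
    · by_cases h2 : (lig E A I Z).Adj z v
      · rw [hczL z u h1, hczL z v h2]
        exact hcL.2.2 z u v h1 h2 huv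
      · obtain ⟨K, hK, h3, h4⟩ := htype z hz v hv h2
        rw [hczL z u h1, hczH z v h2 K hK h3]
        exact ((hfK K hK).1 z h3 v h4).2.1 u h1
    · obtain ⟨K, hK, h3, h4⟩ := htype z hz u hu h1
      by_cases h2 : (lig E A I Z).Adj z v
      · rw [hczL z v h2, hczH z u h1 K hK h3]
        exact (((hfK K hK).1 z h3 u h4).2.1 v h2).symm
      · obtain ⟨K', hK', h5, h6⟩ := htype z hz v hv h2
        have hKe : K' = K := hKK K' hK' K hK z (hT.ZK K' hK' h5) (hT.ZK K hK h3)
        subst hKe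
        rw [hczH z u h1 K' hK' h3, hczH z v h2 K' hK' h3]
        exact fun h7 => huv ((hfK K' hK').2.1 z h3 u h4 v h6 h7)
  -- different edges at an ordinary vertex
  have hczu : ∀ u ∈ A, ∀ z ∈ ZZ I Z, ∀ z' ∈ ZZ I Z, E.Adj u z → E.Adj u z' → z ≠ z' →
      cz z u ≠ cz z' u := by
    intro u hu z hz z' hz' hzu hzu' hne
    by_cases h1 : (lig E A I Z).Adj z u
    · by_cases h2 : (lig E A I Z).Adj z' u
      · rw [hczL z u h1, hczL z' u h2, hcL.1 z u, hcL.1 z' u]
        exact hcL.2.2 u z z' h1.symm h2.symm hne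
      · obtain ⟨K, hK, h3, h4⟩ := htype z' hz' u hzu'.symm h2
        rw [hczL z u h1, hczH z' u h2 K hK h3, hcL.1 z u]
        exact ((hfK K hK).1 z' h3 u h4).2.2 z h1.symm
    · obtain ⟨K, hK, h3, h4⟩ := htype z hz u hzu.symm h1
      by_cases h2 : (lig E A I Z).Adj z' u
      · rw [hczL z' u h2, hczH z u h1 K hK h3, hcL.1 z' u]
        exact (((hfK K hK).1 z h3 u h4).2.2 z' h2.symm).symm
      · obtain ⟨K', hK', h5, h6⟩ := htype z' hz' u hzu'.symm h2
        have hKe : K' = K := hKK K' hK' K hK u (mem_inter.1 h6).2 (mem_inter.1 h4).2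
        subst hKe
        rw [hczH z u h1 K' hK' h3, hczH z' u h2 K' hK' h5]
        exact fun h7 => hne ((hfK K' hK').2.2 u h4 z h3 z' h5 h7)
  -- edges inside `A`
  obtain ⟨cA, hcA, hcF⟩ := hD0 D (by omega) V (ins E A)
    (fun u => if u ∈ A then ((ZZ I Z).filter (fun z => E.Adj u z)).image (fun z => cz z u) else ∅)
    d h N hd (by omega)
    (by
      intro v
      by_cases hv : v ∈ A
      · refine le_trans (nb_le (S' := A) ?_) (hT.da v hv)
        exact fun u _ hu => ⟨hu.2.2, hu.1⟩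
      · rw [nb_zero]
        · exact Nat.zero_le _
        · exact fun u _ hu => hv hu.2.1)
    (by
      intro v
      by_cases hv : v ∈ A
      · simp only [if_pos hv]
        exact le_trans card_image_le (hT.la v hv)
      · simp only [if_neg hv, card_empty]
        exact Nat.zero_le _)
    hN
  -- edges between ordinary vertices
  have hinA : ∀ u v, E.Adj u v → u ∉ ZZ I Z → v ∉ ZZ I Z → (ins E A).Adj u v := by
    intro u v huv h1 h2
    refine ⟨huv, ?_, ?_⟩
    · rcases hT.supp u v huv with h3 | h3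
      · exact h3
      · exact absurd h3 h1
    · rcases hT.supp v u huv.symm with h3 | h3
      · exact h3
      · exact absurd h3 h2
  -- both ends in the mids
  have hsym : ∀ u v, u ∈ ZZ I Z → v ∈ ZZ I Z → E.Adj u v → cz u v = cz v u := by
    intro u v hu hv huv
    have h1 : (lig E A I Z).Adj u v := by
      refine ⟨huv, Or.inl hu, ?_⟩
      rintro ⟨K, hK, h2 | h2⟩
      · exact hDZ v hv (mem_inter.1 h2.2).1
      · exact hDZ u hu (mem_inter.1 h2.2).1
    rw [hczL u v h1, hczL v u h1.symm]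
    exact hcL.1 u v
  let f : V → V → ℕ := fun u v => if E.Adj u v then
    (if u ∈ ZZ I Z then cz u v else if v ∈ ZZ I Z then cz v u else cA u v) else 0
  have hf1 : ∀ u v, E.Adj u v → u ∈ ZZ I Z → f u v = cz u v := by
    intro u v h1 h2
    simp only [f, if_pos h1, if_pos h2]
  have hf2 : ∀ u v, E.Adj u v → v ∈ ZZ I Z → f u v = cz v u := by
    intro u v h1 h2
    by_cases h3 : u ∈ ZZ I Z
    · simp only [f, if_pos h1, if_pos h3]
      exact hsym u v h3 h2 h1
    · simp only [f, if_pos h1, if_neg h3, if_pos h2]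
  have hf3 : ∀ u v, E.Adj u v → u ∉ ZZ I Z → v ∉ ZZ I Z → f u v = cA u v := by
    intro u v h1 h2 h3
    simp only [f, if_pos h1, if_neg h2, if_neg h3]
  have hf4 : ∀ u v, ¬ E.Adj u v → f u v = 0 := by
    intro u v h1
    simp only [f, if_neg h1]
  refine ⟨f, ⟨?_, ?_, ?_⟩, ?_⟩
  · intro u v
    by_cases h1 : E.Adj u v
    · by_cases h2 : u ∈ ZZ I Z
      · rw [hf1 u v h1 h2, hf2 v u h1.symm h2]
      · by_cases h3 : v ∈ ZZ I Z
        · rw [hf2 u v h1 h3, hf1 v u h1.symm h3]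
        · rw [hf3 u v h1 h2 h3, hf3 v u h1.symm h3 h2]
          exact hcA.1 u v
    · rw [hf4 u v h1, hf4 v u (fun h => h1 h.symm)]
  · intro u v h1
    by_cases h2 : u ∈ ZZ I Z
    · rw [hf1 u v h1 h2]
      exact (hczX u h2 v h1).trans_le (hX u h2).2
    · by_cases h3 : v ∈ ZZ I Z
      · rw [hf2 u v h1 h3]
        exact (hczX v h3 u h1.symm).trans_le (hX v h3).2
      · rw [hf3 u v h1 h2 h3]
        exact hcA.2.1 u v (hinA u v h1 h2 h3)
  · intro u v w h1 h2 hne
    by_cases hu : u ∈ ZZ I Z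
    · rw [hf1 u v h1 hu, hf1 u w h2 hu]
      exact hczz u hu v w h1 h2 hne
    · have huA : u ∈ A := (hT.supp u v h1).resolve_right hu
      by_cases hv : v ∈ ZZ I Z
      · by_cases hw : w ∈ ZZ I Z
        · rw [hf2 u v h1 hv, hf2 u w h2 hw]
          exact hczu u huA v hv w hw h1 h2 hne
        · rw [hf2 u v h1 hv, hf3 u w h2 hu hw]
          intro h3
          have h4 := (hcF u w (hinA u w h2 hu hw)).1
          simp only [if_pos huA] at h4
          exact h4 (mem_image.2 ⟨v, mem_filter.2 ⟨hv, h1⟩, h3⟩)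
      · by_cases hw : w ∈ ZZ I Z
        · rw [hf3 u v h1 hu hv, hf2 u w h2 hw]
          intro h3
          have h4 := (hcF u v (hinA u v h1 hu hv)).1
          simp only [if_pos huA] at h4
          exact h4 (mem_image.2 ⟨w, mem_filter.2 ⟨hw, h2⟩, h3.symm⟩)
        · rw [hf3 u v h1 hu hv, hf3 u w h2 hu hw]
          exact hcA.2.2 u v w (hinA u v h1 hu hv) (hinA u w h2 hu hw) hne
  · intro z hz u hzu
    rw [hf1 z u hzu hz]
    exact hczX z hz u hzu

end Pool.Agent.H31.HV
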